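import Pool.Agent.Helper35_MVO.Com

/-!
# Squad MVO, row FAA (helper35)
-/

namespace Pool.Agent.MVO.H35

open Pool.Agent.Helper14_MV Pool.Agent.Helper2_MV Pool.Agent.MVO

theorem mem_sp {k j : ℕ} {a : ℕ → ℕ} : j ∈ sp k a ↔ j ≤ k ∧ a j ≠ 0 := by
  unfold sp
  rw [Finset.mem_filter, Finset.mem_range]
  constructor
  · rintro ⟨h1, h2⟩
    exact ⟨by omega, h2⟩
  · rintro ⟨h1, h2⟩
    exact ⟨by omega, h2⟩

theorem max_sp {k i : ℕ} {a : ℕ → ℕ} (h : (sp k a).max = (i : WithBot ℕ)) :
    i ≤ k ∧ a i ≠ 0 ∧ ∀ j, i < j → j ≤ k → a j = 0 := by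
  have h1 := mem_sp.1 (Finset.mem_of_max h)
  refine ⟨h1.1, h1.2, fun j h2 h3 => ?_⟩
  by_contra h4
  have h5 : ((j : ℕ) : WithBot ℕ) ≤ (sp k a).max := Finset.le_max (mem_sp.2 ⟨h3, h4⟩)
  rw [h] at h5
  have h6 : j ≤ i := by exact_mod_cast h5
  omega

theorem max_sp_iff {k i : ℕ} {a : ℕ → ℕ} (hi : i ≤ k) (h0 : a i ≠ 0)
    (h : ∀ j, i < j → j ≤ k → a j = 0) : (sp k a).max = (i : WithBot ℕ) := by
  apply le_antisymm
  · apply Finset.max_le
    intro j hj
    obtain ⟨h1, h2⟩ := mem_sp.1 hj
    have h4 : j ≤ i := by
      by_contra h3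
      exact h2 (h j (by omega) h1)
    exact WithBot.coe_le_coe.2 h4
  · exact Finset.le_max (mem_sp.2 ⟨hi, h0⟩)

theorem flp_same (e : ℕ → Bool) (i : ℕ) : flp e i i = !(e i) := by simp [flp]

theorem flp_ne {e : ℕ → Bool} {i j : ℕ} (h : j ≠ i) : flp e i j = e j := by simp [flp, h]

/-- F0 -/
theorem f0 (hN : NfaStmt) {ρ : FIC} (hA : ClA ρ) {k : ℕ} {a b : ℕ → ℕ} {i : ℕ}
    (ha : 2 ≤ deg k a) (hb : 2 ≤ deg k b) (hi : i ≤ k)
    (h : ¬ ((sp k a).max = (i : WithBot ℕ) ∧ (sp k b).max = (i : WithBot ℕ))) : Bt ρ k a b i := by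
  intro e
  apply w2_congr hN hA ha hb
  by_cases h0 : a i = 0 ∨ b i = 0
  · have : w2 k a b e = w2 k a b (flp e i) := by
      unfold w2
      apply asm_congr
      intro j hj
      by_cases hji : j = i
      · subst hji
        rcases h0 with h0 | h0
        · rw [h0]
          exact bl_zero_left _ _ _
        · rw [h0]
          exact bl_zero_right _ _ _
      · rw [flp_ne hji]
    rw [this]
  · rw [not_or] at h0
    have hex : ∃ j, i < j ∧ j ≤ k ∧ (a j ≠ 0 ∨ b j ≠ 0) := by
      by_contra hno
      push Not at hno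
      exact h ⟨max_sp_iff hi h0.1 fun j h1 h2 => (hno j h1 h2).1,
        max_sp_iff hi h0.2 fun j h1 h2 => (hno j h1 h2).2⟩
    obtain ⟨j, h1, h2, h3⟩ := hex
    apply lst_asm_congr (i := i)
    · intro j hj1 hj2
      rw [flp_ne (by omega)]
    · exact ⟨j, h1, h2, lst_bl_ne h3 _⟩

/-- F2 -/
theorem f2 {ρ : FIC} {k : ℕ} {a a' b : ℕ → ℕ} {i : ℕ} (h : L1 ρ k a a') (hB : Bt ρ k a' b i) :
    Bt ρ k a b i := by
  have key : ∀ e : ℕ → Bool, RR ρ (w2 k a b e) (w2 k a' b e) := by
    intro e
    have h1 := rr_ins' ρ (fun j => if e j then List.replicate (b j) 1 else [])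
      (fun j => if e j then [] else List.replicate (b j) 1) (blkOk_mw k a) (blkOk_mw k a') h
    have h2 : ∀ c : ℕ → ℕ, asm k (fun j => (if e j then List.replicate (b j) 1 else []) ++
        List.replicate (c j) 0 ++ (if e j then [] else List.replicate (b j) 1)) = w2 k c b e := by
      intro c
      unfold w2
      apply asm_congr
      intro j hj
      unfold bl
      cases e j <;> simp
    rw [h2 a, h2 a'] at h1
    exact h1
  intro e
  exact ρ.trans (key e) (ρ.trans (hB e) (RR.symm (key (flp e i))))

theorem deg_le {k : ℕ} {a b : ℕ → ℕ} (h : ∀ j ≤ k, a j ≤ b j) : deg k a ≤ deg k b := by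
  unfold deg
  exact Finset.sum_le_sum fun j hj => h j (by rw [Finset.mem_range] at hj; omega)

/-- F3 -/
theorem f3 (hN : NfaStmt) {ρ : FIC} (hA : ClA ρ) {k : ℕ} {a b d d' : ℕ → ℕ} {i : ℕ}
    (ha : 2 ≤ deg k a) (hb : 2 ≤ deg k b) (hi : i ≤ k)
    (hma : (sp k a).max = (i : WithBot ℕ)) (hmb : (sp k b).max = (i : WithBot ℕ))
    (hB : Bt ρ k a b i) : Bt ρ k (fun j => a j + d j) (fun j => b j + d' j) i := by
  have ha' : 2 ≤ deg k (fun j => a j + d j) := ha.trans (deg_le fun j _ => by omega)
  have hb' : 2 ≤ deg k (fun j => b j + d' j) := hb.trans (deg_le fun j _ => by omega)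
  by_cases hm : (sp k (fun j => a j + d j)).max = (i : WithBot ℕ) ∧
      (sp k (fun j => b j + d' j)).max = (i : WithBot ℕ)
  · obtain ⟨-, a0, az⟩ := max_sp hma
    obtain ⟨-, b0, bz⟩ := max_sp hmb
    obtain ⟨-, -, az'⟩ := max_sp hm.1
    obtain ⟨-, -, bz'⟩ := max_sp hm.2
    have key : ∀ e : ℕ → Bool, RR ρ (asm k (fun j => bl (d j) (d' j) false ++
        bl (a j) (b j) (e j) ++ [])) (w2 k (fun j => a j + d j) (fun j => b j + d' j) e) := by
      intro e
      apply nf2 hN hA (a := fun j => a j + d j) (b := fun j => b j + d' j) _ _ _ _ ha' hb'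
      · have hd : ∀ j, i < j → j ≤ k → d j = 0 ∧ d' j = 0 ∧ a j = 0 ∧ b j = 0 := by
          intro j h1 h2
          have h3 := az' j h1 h2
          have h4 := bz' j h1 h2
          omega
        have e1 : lst (asm k (fun j => bl (d j) (d' j) false ++ bl (a j) (b j) (e j) ++ [])) =
            some (if e i then 0 else 1) := by
          apply lst_asm hi
          · intro j h1 h2
            obtain ⟨h3, h4, h5, h6⟩ := hd j h1 h2
            rw [h3, h4, h5, h6]
            simp [bl]
          · rw [List.append_nil, lst_append, lst_bl (by omega) (by omega)]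
            rfl
        have e2 : lst (asm k (fun j => bl (a j + d j) (b j + d' j) (e j))) =
            some (if e i then 0 else 1) := by
          apply lst_asm hi
          · intro j h1 h2
            obtain ⟨h3, h4, h5, h6⟩ := hd j h1 h2
            rw [h3, h4, h5, h6]
            exact bl_zero _
          · exact lst_bl (by omega) (by omega) _
        rw [e1]
        exact e2.symm
      · intro j hj c hc
        simp only [List.append_nil, List.mem_append] at hc
        rcases hc with hc | hc
        · exact mem_bl hc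
        · exact mem_bl hc
      · intro j hj c hc
        exact mem_bl hc
      · intro j hj
        simp only [List.append_nil, List.count_append, count0_bl]
        exact ⟨by omega, trivial⟩
      · intro j hj
        simp only [List.append_nil, List.count_append, count1_bl]
        exact ⟨by omega, trivial⟩
    intro e
    have ok : ∀ e : ℕ → Bool, BlkOk k (fun j => bl (a j) (b j) (e j)) := by
      intro e j hj c hc hs
      rcases mem_bl hc with h | h <;> subst h <;> omega
    have h1 := rr_ins' ρ (fun j => bl (d j) (d' j) false) (fun _ => []) (ok e) (ok (flp e i))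
      (hB e)
    exact ρ.trans (RR.symm (key e)) (ρ.trans h1 (key (flp e i)))
  · exact f0 hN hA ha' hb' hi hm

theorem deg_psh {k k' : ℕ} {f : ℕ → ℕ} (hf : BMap k k' f) (a : ℕ → ℕ) :
    deg k' (psh k f a) = deg k a := by
  unfold deg psh
  rw [Finset.sum_comm]
  apply Finset.sum_congr rfl
  intro i hi
  rw [Finset.mem_range] at hi
  rw [Finset.sum_eq_single (f i)]
  · rw [if_pos rfl]
  · intro j _ hj
    rw [if_neg (fun h => hj h.symm)]
  · intro h
    exfalso
    apply h
    rw [Finset.mem_range]
    have := hf.le i (by omega)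
    omega

theorem count_pshB (k : ℕ) (f : ℕ → ℕ) (B : ℕ → List ℕ) (c j : ℕ) :
    (pshB k f B j).count c = psh k f (fun i => (B i).count c) j := by
  induction k with
  | zero =>
    rw [pshB_zero]
    unfold psh
    by_cases h : f 0 = j
    · simp [h]
    · simp [h]
  | succ k ih =>
    rw [pshB_succ, List.count_append, ih]
    have e : psh (k + 1) f (fun i => (B i).count c) j = psh k f (fun i => (B i).count c) j +
        (if f (k + 1) = j then (B (k + 1)).count c else 0) := by
      unfold psh
      rw [Finset.sum_range_succ _ (k + 1)]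
    rw [e]
    by_cases h : f (k + 1) = j
    · rw [if_pos h, if_pos h]
    · rw [if_neg h, if_neg h]
      simp

theorem lst_range' (s n : ℕ) (hs : 2 ≤ s) : lst (List.range' s n) = none := by
  unfold lst
  have : (List.range' s n).filter p01 = [] := by
    rw [List.filter_eq_nil_iff]
    intro x hx
    rw [List.mem_range'_1] at hx
    rw [p01, decide_eq_true_iff]
    omega
  rw [this]
  rfl

theorem filter_pSub (k : ℕ) (f : ℕ → ℕ) (w : List ℕ) :
    (w.flatMap (pSub k f)).filter p01 = w.filter p01 := by
  induction w with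
  | nil => rfl
  | cons c w ih =>
    rw [List.flatMap_cons, List.filter_append, ih]
    have e : c :: w = [c] ++ w := rfl
    rw [e, List.filter_append]
    congr 1
    by_cases h : 2 ≤ c ∧ c ≤ k + 1
    · unfold pSub
      rw [if_pos h]
      have h1 : (List.range' (f (c - 2) + 2) (f (c - 1) - f (c - 2))).filter p01 = [] := by
        rw [List.filter_eq_nil_iff]
        intro x hx
        rw [List.mem_range'_1] at hx
        rw [p01, decide_eq_true_iff]
        omega
      have h2 : [c].filter p01 = [] := by
        rw [List.filter_eq_nil_iff]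
        intro x hx
        rw [List.mem_singleton] at hx
        subst hx
        rw [p01, decide_eq_true_iff]
        omega
      rw [h1, h2]
    · rw [pSub_ns h]

theorem lst_pshB {k k' : ℕ} {f : ℕ → ℕ} (hf : BMap k k' f) {B : ℕ → List ℕ} (hB : BlkOk k B) :
    lst (asm k' (pshB k f B)) = lst (asm k B) := by
  rw [← push_word hf hB, lst_append, lst_range' _ _ (by omega), Option.none_or, lst_append,
    lst_range' _ _ (by omega), Option.or_none]
  unfold lst
  rw [filter_pSub]

/-- F4 -/
theorem f4 (hN : NfaStmt) {ρ : FIC} (hA : ClA ρ) {k k' : ℕ} {f : ℕ → ℕ} {a b : ℕ → ℕ} {i : ℕ}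
    (hf : BMap k k' f) (ha : 2 ≤ deg k a) (hb : 2 ≤ deg k b) (hi : i ≤ k)
    (hma : (sp k a).max = (i : WithBot ℕ)) (hmb : (sp k b).max = (i : WithBot ℕ))
    (hB : Bt ρ k a b i) : Bt ρ k' (psh k f a) (psh k f b) (f i) := by
  have ha' : 2 ≤ deg k' (psh k f a) := by rw [deg_psh hf]; exact ha
  have hb' : 2 ≤ deg k' (psh k f b) := by rw [deg_psh hf]; exact hb
  obtain ⟨-, a0, az⟩ := max_sp hma
  obtain ⟨-, b0, bz⟩ := max_sp hmb
  have ok : ∀ e : ℕ → Bool, BlkOk k (fun j => bl (a j) (b j) (e j)) := by
    intro e j hj c hc hs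
    rcases mem_bl hc with h | h <;> subst h <;> omega
  have pos : ∀ c : ℕ → ℕ, c i ≠ 0 → psh k f c (f i) ≠ 0 := by
    intro c hc h0
    unfold psh at h0
    rw [Finset.sum_eq_zero_iff] at h0
    have := h0 i (by rw [Finset.mem_range]; omega)
    rw [if_pos rfl] at this
    exact hc this
  have zer : ∀ c : ℕ → ℕ, (∀ j, i < j → j ≤ k → c j = 0) → ∀ j, f i < j → psh k f c j = 0 := by
    intro c hc j hj
    unfold psh
    apply Finset.sum_eq_zero
    intro m hm
    rw [Finset.mem_range] at hm
    split_ifs with h
    · apply hc m _ (by omega)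
      by_contra h1
      have := hf.mono m i (by omega) hi
      omega
    · rfl
  have key : ∀ (e : ℕ → Bool) (e' : ℕ → Bool), e i = e' (f i) →
      RR ρ (asm k' (pshB k f (fun j => bl (a j) (b j) (e j))))
        (w2 k' (psh k f a) (psh k f b) e') := by
    intro e e' hee
    apply nf2 hN hA (a := psh k f a) (b := psh k f b) _ _ _ _ ha' hb'
    · rw [lst_pshB hf (ok e)]
      have e1 : lst (asm k (fun j => bl (a j) (b j) (e j))) = some (if e i then 0 else 1) := by
        apply lst_asm hi
        · intro j h1 h2
          rw [az j h1 h2, bz j h1 h2]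
          exact bl_zero _
        · exact lst_bl (by omega) (by omega) _
      have e2 : lst (w2 k' (psh k f a) (psh k f b) e') = some (if e' (f i) then 0 else 1) := by
        apply lst_asm (hf.le i hi)
        · intro j h1 h2
          rw [zer a az j h1, zer b bz j h1]
          exact bl_zero _
        · exact lst_bl (Nat.pos_of_ne_zero (pos a a0)) (Nat.pos_of_ne_zero (pos b b0)) _
      rw [e1, hee]
      exact e2.symm
    · intro j hj c hc
      rw [mem_pshB] at hc
      obtain ⟨m, -, -, hc⟩ := hc
      exact mem_bl hc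
    · intro j hj c hc
      exact mem_bl hc
    · intro j hj
      refine ⟨?_, count0_bl _ _ _⟩
      rw [count_pshB]
      simp only [count0_bl]
    · intro j hj
      refine ⟨?_, count1_bl _ _ _⟩
      rw [count_pshB]
      simp only [count1_bl]
  intro e'
  obtain ⟨e, he⟩ : ∃ e : ℕ → Bool, e = fun _ => e' (f i) := ⟨_, rfl⟩
  have h1 := rr_push ρ hf (ok e) (ok (flp e i)) (hB e)
  have h2 := key e e' (by rw [he])
  have h3 := key (flp e i) (flp e' (f i)) (by rw [flp_same, flp_same, he])
  exact ρ.trans (RR.symm h2) (ρ.trans h1 h3)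

/-- F5 -/
theorem f5 {ρ : FIC} {k : ℕ} {a b : ℕ → ℕ} {i : ℕ} (hB : Bt ρ k a b i) : Bt ρ k b a i := by
  intro e
  have ok : ∀ e : ℕ → Bool, BlkOk k (fun j => bl (a j) (b j) (e j)) := by
    intro e j hj c hc hs
    rcases mem_bl hc with h | h <;> subst h <;> omega
  have h1 := rr_sub ρ (fun c => if c = 0 then [1] else if c = 1 then [0] else [c])
    (ok fun j => !(e j)) (ok (flp (fun j => !(e j)) i)) (hB fun j => !(e j))
  have hbl : ∀ p q : ℕ, ∀ t : Bool,
      (bl p q t).flatMap (fun c => if c = 0 then [1] else if c = 1 then [0] else [c]) =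
        bl q p (!t) := by
    intro p q t
    have r0 : ∀ n : ℕ, (List.replicate n 0).flatMap
        (fun c : ℕ => if c = 0 then [1] else if c = 1 then [0] else [c]) =
          List.replicate n 1 := by
      intro n
      induction n with
      | zero => rfl
      | succ n ih =>
        rw [List.replicate_succ, List.flatMap_cons, ih, List.replicate_succ]
        rfl
    have r1 : ∀ n : ℕ, (List.replicate n 1).flatMap
        (fun c : ℕ => if c = 0 then [1] else if c = 1 then [0] else [c]) =
          List.replicate n 0 := by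
      intro n
      induction n with
      | zero => rfl
      | succ n ih =>
        rw [List.replicate_succ, List.flatMap_cons, ih, List.replicate_succ]
        rfl
    unfold bl
    cases t
    · simp only [Bool.false_eq_true, if_false, Bool.not_false, if_true]
      rw [List.flatMap_append, r0, r1]
    · simp only [Bool.not_true, Bool.false_eq_true, if_false, if_true]
      rw [List.flatMap_append, r0, r1]
  have e1 : asm k (fun j => (bl (a j) (b j) (!(e j))).flatMap
      (fun c => if c = 0 then [1] else if c = 1 then [0] else [c])) = w2 k b a e := by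
    unfold w2
    apply asm_congr
    intro j hj
    rw [hbl, Bool.not_not]
  have e2 : asm k (fun j => (bl (a j) (b j) (flp (fun j => !(e j)) i j)).flatMap
      (fun c => if c = 0 then [1] else if c = 1 then [0] else [c])) = w2 k b a (flp e i) := by
    unfold w2
    apply asm_congr
    intro j hj
    rw [hbl]
    congr 1
    unfold flp
    split_ifs <;> simp
  rw [e1, e2] at h1
  exact h1

/-- F6 -/
theorem f6 (hN : NfaStmt) {ρ : FIC} (hA : ClA ρ) (hR : R0 ρ) {k : ℕ} {a b : ℕ → ℕ} {i : ℕ}
    (hi : i ≤ k) (ha : 2 ≤ a i) (hb : 2 ≤ b i) : Bt ρ k a b i := by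
  have ha' : 2 ≤ deg k a := ha.trans (by
    unfold deg
    exact Finset.single_le_sum (f := a) (fun _ _ => Nat.zero_le _)
      (Finset.mem_range.2 (by omega)))
  have hb' : 2 ≤ deg k b := hb.trans (by
    unfold deg
    exact Finset.single_le_sum (f := b) (fun _ _ => Nat.zero_le _)
      (Finset.mem_range.2 (by omega)))
  by_cases hm : (sp k a).max = (i : WithBot ℕ) ∧ (sp k b).max = (i : WithBot ℕ)
  · obtain ⟨-, -, az⟩ := max_sp hm.1
    obtain ⟨-, -, bz⟩ := max_sp hm.2
    -- the words with the two squares at the end of block `i`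
    obtain ⟨W, hW⟩ : ∃ W : List ℕ → (ℕ → Bool) → ℕ → List ℕ, W = fun u e j =>
        if j = i then (List.replicate (a i - 2) 0 ++ List.replicate (b i - 2) 1) ++ u else
          bl (a j) (b j) (e j) := ⟨_, rfl⟩
    have hWi : ∀ u e, W u e i =
        (List.replicate (a i - 2) 0 ++ List.replicate (b i - 2) 1) ++ u := by
      intro u e
      rw [hW]
      simp
    have hWj : ∀ u e j, j ≠ i → W u e j = bl (a j) (b j) (e j) := by
      intro u e j hj
      rw [hW]
      simp [hj]
    have key : ∀ (u : List ℕ) (e : ℕ → Bool), (∀ c ∈ u, c = 0 ∨ c = 1) → u.count 0 = 2 →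
        u.count 1 = 2 → lst u = some (if e i then 0 else 1) → RR ρ (asm k (W u e)) (w2 k a b e) := by
      intro u e hu h0 h1 hl
      apply nf2 hN hA (a := a) (b := b) _ _ _ _ ha' hb'
      · have e1 : lst (asm k (W u e)) = some (if e i then 0 else 1) := by
          apply lst_asm hi
          · intro j h1 h2
            rw [hWj _ _ _ (by omega), az j h1 h2, bz j h1 h2]
            exact bl_zero _
          · rw [hWi, lst_append, hl]
            rfl
        have e2 : lst (w2 k a b e) = some (if e i then 0 else 1) := by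
          apply lst_asm hi
          · intro j h1 h2
            rw [az j h1 h2, bz j h1 h2]
            exact bl_zero _
          · exact lst_bl (by omega) (by omega) _
        rw [e1]
        exact e2.symm
      · intro j hj c hc
        by_cases hji : j = i
        · subst hji
          rw [hWi, List.mem_append, List.mem_append] at hc
          rcases hc with (hc | hc) | hc
          · exact Or.inl (List.eq_of_mem_replicate hc)
          · exact Or.inr (List.eq_of_mem_replicate hc)
          · exact hu c hc
        · rw [hWj _ _ _ hji] at hc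
          exact mem_bl hc
      · intro j hj c hc
        exact mem_bl hc
      · intro j hj
        refine ⟨?_, count0_bl _ _ _⟩
        by_cases hji : j = i
        · subst hji
          rw [hWi, List.count_append, List.count_append, h0]
          simp [List.count_replicate]
          omega
        · rw [hWj _ _ _ hji]
          exact count0_bl _ _ _
      · intro j hj
        refine ⟨?_, count1_bl _ _ _⟩
        by_cases hji : j = i
        · subst hji
          rw [hWi, List.count_append, List.count_append, h1]
          simp [List.count_replicate]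
          omega
        · rw [hWj _ _ _ hji]
          exact count1_bl _ _ _
    have mid : ∀ e : ℕ → Bool, RR ρ (asm k (W [0, 0, 1, 1] e)) (asm k (W [1, 1, 0, 0] (flp e i))) := by
      intro e
      apply asm_rr
      intro j hj
      by_cases hji : j = i
      · subst hji
        rw [hWi, hWi]
        exact (RR.refl _).append hR
      · rw [hWj _ _ _ hji, hWj _ _ _ hji, flp_ne hji]
        exact RR.refl _
    have flip2 : ∀ e : ℕ → Bool, flp (flp e i) i = e := by
      intro e
      funext j
      unfold flp
      split_ifs <;> simp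
    have one : ∀ e : ℕ → Bool, e i = false → RR ρ (w2 k a b e) (w2 k a b (flp e i)) := by
      intro e he
      have h1 := key [0, 0, 1, 1] e (by simp) (by decide) (by decide) (by rw [he]; decide)
      have h2 := key [1, 1, 0, 0] (flp e i) (by simp) (by decide) (by decide)
        (by rw [flp_same, he]; decide)
      exact ρ.trans (RR.symm h1) (ρ.trans (mid e) h2)
    intro e
    cases he : e i
    · exact one e he
    · have h1 := one (flp e i) (by rw [flp_same, he]; rfl)
      rw [flip2] at h1
      exact RR.symm h1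
  · exact f0 hN hA ha' hb' hi hm

theorem faa (hN : NfaStmt) : FaaStmt := by
  intro ρ hA
  exact ⟨fun k a b i ha hb hi h => f0 hN hA ha hb hi h,
    fun k a a' b i h hB => f2 h hB,
    fun k a b d d' i ha hb hi h1 h2 hB => f3 hN hA ha hb hi h1 h2 hB,
    fun k k' f a b i hf ha hb hi h1 h2 hB => f4 hN hA hf ha hb hi h1 h2 hB,
    fun k a b i hB => f5 hB,
    fun hR k a b i hi ha hb => f6 hN hA hR hi ha hb⟩

end Pool.Agent.MVO.H35
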