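import Pool.Agent.Helper35_MVO.Com

/-!
# Squad MVO, row RGA (helper35)
-/

namespace Pool.Agent.MVO.H35

open Pool.Agent.Helper14_MV Pool.Agent.Helper2_MV Pool.Agent.MVO

theorem exists_last {k : ℕ} {f : ℕ → ℕ} (h : 0 < deg k f) :
    ∃ i ≤ k, f i ≠ 0 ∧ ∀ j, i < j → j ≤ k → f j = 0 := by
  induction k with
  | zero =>
    refine ⟨0, le_rfl, ?_, fun j h1 h2 => by omega⟩
    intro h0
    unfold deg at h
    simp [h0] at h
  | succ k ih =>
    by_cases h1 : f (k + 1) = 0
    · have h2 : deg (k + 1) f = deg k f := by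
        unfold deg
        rw [Finset.sum_range_succ _ (k + 1), h1, add_zero]
      rw [h2] at h
      obtain ⟨i, h3, h4, h5⟩ := ih h
      refine ⟨i, by omega, h4, fun j h6 h7 => ?_⟩
      by_cases hj : j = k + 1
      · subst hj
        exact h1
      · exact h5 j h6 (by omega)
    · exact ⟨k + 1, le_rfl, h1, fun j h6 h7 => by omega⟩

theorem rga (hN : NfaStmt) : RgaStmt := by
  intro β hA k a b ha hb
  have hab : 0 < deg k (fun j => a j + b j) := by
    have : deg k (fun j => a j + b j) = deg k a + deg k b := by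
      unfold deg
      exact Finset.sum_add_distrib
    omega
  obtain ⟨i, hi, hne, hz⟩ := exists_last hab
  refine ⟨i, fun e e' hee => ?_⟩
  apply w2_congr hN hA ha hb
  have hne' : a i ≠ 0 ∨ b i ≠ 0 := by
    omega
  obtain ⟨z, hzz⟩ := Option.ne_none_iff_exists'.1 (lst_bl_ne hne' (e i))
  have hB : ∀ f : ℕ → Bool, ∀ j, i < j → j ≤ k → bl (a j) (b j) (f j) = [] := by
    intro f j h1 h2
    have h3 := hz j h1 h2
    have ha0 : a j = 0 := by omega
    have hb0 : b j = 0 := by omega
    rw [ha0, hb0, bl_zero]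
  unfold w2
  rw [lst_asm hi (B := fun j => bl (a j) (b j) (e j)) (hB e) hzz,
    lst_asm hi (B := fun j => bl (a j) (b j) (e' j)) (hB e') (z := z) (by
      rw [← hee]
      exact hzz)]

end Pool.Agent.MVO.H35
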