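import Pool.Agent.MVO.StmtsE
import Pool.Agent.Helper35_MVO.RGA

/-!
# Squad MVO, row FFX (helper35)
-/

namespace Pool.Agent.MVO.H35

open Pool.Agent.Helper14_MV Pool.Agent.Helper2_MV Pool.Agent.MVO

/-! ### gathering -/

theorem count_takeWhile_ne (c : ℕ) (L : List ℕ) :
    (L.takeWhile (fun d => d ≠ c)).count c = 0 := by
  rw [List.count_eq_zero]
  intro h
  have := List.mem_takeWhile_imp h
  simp at this

theorem gF_count (c : ℕ) (L : List ℕ) (a : ℕ) : (gF c L).count a = L.count a := by
  have e : L.count a = (L.takeWhile (fun d => decide (d ≠ c))).count a +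
      (L.dropWhile (fun d => decide (d ≠ c))).count a := by
    rw [← List.count_append, List.takeWhile_append_dropWhile]
  unfold gF
  rw [List.count_append, List.count_append]
  by_cases h : a = c
  · subst h
    rw [count_takeWhile_ne, List.count_replicate_self]
    have : ((L.dropWhile (fun d => decide (d ≠ a))).filter (fun d => decide (d ≠ a))).count a =
        0 := by
      rw [List.count_eq_zero]
      intro h
      have := (List.mem_filter.1 h).2
      simp at this
    rw [this]
    omega
  · have h1 : (List.replicate (L.count c) c).count a = 0 := by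
      rw [List.count_eq_zero]
      intro h2
      exact h (List.eq_of_mem_replicate h2)
    have h2 : ((L.dropWhile (fun d => decide (d ≠ c))).filter (fun d => decide (d ≠ c))).count a =
        (L.dropWhile (fun d => decide (d ≠ c))).count a :=
      List.count_filter (by simpa using h)
    rw [h1, h2, e]
    omega

theorem gL_count (c : ℕ) (L : List ℕ) (a : ℕ) : (gL c L).count a = L.count a := by
  unfold gL
  rw [List.count_reverse, gF_count, List.count_reverse]

theorem gA_count (c M : ℕ) (B : ℕ → List ℕ) (j a : ℕ) : (gA c M B j).count a = (B j).count a := by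
  unfold gA
  split_ifs
  · exact gF_count _ _ _
  · exact gL_count _ _ _

theorem gF_notMem {c : ℕ} {L : List ℕ} (h : c ∉ L) : gF c L = L := by
  unfold gF
  have h1 : L.takeWhile (fun d => decide (d ≠ c)) = L := by
    rw [List.takeWhile_eq_self_iff]
    intro d hd
    rw [decide_eq_true_iff]
    intro h2
    exact h (h2 ▸ hd)
  have h2 : L.dropWhile (fun d => decide (d ≠ c)) = [] := by
    rw [List.dropWhile_eq_nil_iff]
    intro d hd
    rw [decide_eq_true_iff]
    intro h2
    exact h (h2 ▸ hd)
  rw [h1, h2, List.count_eq_zero.2 h]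
  simp

theorem gL_notMem {c : ℕ} {L : List ℕ} (h : c ∉ L) : gL c L = L := by
  unfold gL
  rw [gF_notMem (by rwa [List.mem_reverse]), List.reverse_reverse]

theorem gA_notMem {c M : ℕ} {B : ℕ → List ℕ} {j : ℕ} (h : c ∉ B j) : gA c M B j = B j := by
  unfold gA
  split_ifs
  · exact gF_notMem h
  · exact gL_notMem h

theorem gA_form (c M : ℕ) (B : ℕ → List ℕ) (j : ℕ) :
    ∃ p q, gA c M B j = p ++ List.replicate ((B j).count c) c ++ q := by
  unfold gA
  split_ifs
  · exact ⟨_, _, rfl⟩
  · unfold gL gF
    refine ⟨(((B j).reverse.dropWhile (fun d => decide (d ≠ c))).filter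
      (fun d => decide (d ≠ c))).reverse,
      ((B j).reverse.takeWhile (fun d => decide (d ≠ c))).reverse, ?_⟩
    rw [List.reverse_append, List.reverse_append, List.reverse_replicate, List.count_reverse,
      ← List.append_assoc]

/-- gathering behind a part without `c` -/
theorem gF_app {c : ℕ} {P Q : List ℕ} (h : c ∉ P) :
    gF c (P ++ c :: Q) = P ++ List.replicate ((P ++ c :: Q).count c) c ++
      Q.filter (fun d => decide (d ≠ c)) := by
  unfold gF
  have h0 : ∀ d ∈ P, decide (d ≠ c) = true := by
    intro d hd
    rw [decide_eq_true_iff]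
    intro h2
    exact h (h2 ▸ hd)
  have h1 : (P ++ c :: Q).takeWhile (fun d => decide (d ≠ c)) = P := by
    rw [List.takeWhile_append_of_pos h0]
    simp
  have h2 : (P ++ c :: Q).dropWhile (fun d => decide (d ≠ c)) = c :: Q := by
    rw [List.dropWhile_append_of_pos h0]
    simp
  rw [h1, h2]
  congr 1
  rw [List.filter_cons_of_neg (by simp)]

/-! ### two letters -/

theorem nf2s (hN : NfsStmt) {β : FIC} (hC : MVD.Cc β) {k : ℕ} {U V : ℕ → List ℕ} {x y : ℕ}
    (hx : NS k x) (hy : NS k y) (hU : ∀ j ≤ k, ∀ z ∈ U j, z = x ∨ z = y)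
    (hV : ∀ j ≤ k, ∀ z ∈ V j, z = x ∨ z = y)
    (hcx : ∀ j ≤ k, (U j).count x = (V j).count x)
    (hcy : ∀ j ≤ k, (U j).count y = (V j).count y)
    (hdx : 2 ≤ deg k (fun j => (U j).count x)) (hdy : 2 ≤ deg k (fun j => (U j).count y))
    (hh : (rl x y (asm k U)).head? = (rl x y (asm k V)).head?)
    (hl : (rl x y (asm k U)).getLast? = (rl x y (asm k V)).getLast?) :
    RR β (asm k U) (asm k V) := by
  have ok : ∀ C : ℕ → List ℕ, (∀ j ≤ k, ∀ c ∈ C j, c = x ∨ c = y) → BlkOk k C := by
    intro C hC j hj c hc
    rcases hC j hj c hc with h | h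
    · rw [h]; exact hx
    · rw [h]; exact hy
  have dg : ∀ f g : ℕ → ℕ, (∀ j ≤ k, f j = g j) → deg k f = deg k g := by
    intro f g h
    unfold deg
    exact Finset.sum_congr rfl fun j hj => h j (by rw [Finset.mem_range] at hj; omega)
  have c0 : (asm k U).count x = (asm k V).count x := by
    rw [count_asm hx, count_asm hx]
    exact dg _ _ hcx
  have c1 : (asm k U).count y = (asm k V).count y := by
    rw [count_asm hy, count_asm hy]
    exact dg _ _ hcy
  apply hN β hC k U V (ok U hU) (ok V hV)
  · intro j hj c
    by_cases hc0 : c = x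
    · subst hc0
      exact hcx j hj
    by_cases hc1 : c = y
    · subst hc1
      exact hcy j hj
    rw [List.count_eq_zero.2 fun h => ?_, List.count_eq_zero.2 fun h => ?_]
    · rcases hV j hj c h with h | h
      · exact hc0 h
      · exact hc1 h
    · rcases hU j hj c h with h | h
      · exact hc0 h
      · exact hc1 h
  · intro j hj c hc
    rcases hU j hj c hc with h | h
    · subst h
      exact hdx
    · subst h
      exact hdy
  · intro c d hc hd
    have key : ∀ C : ℕ → List ℕ, (∀ j ≤ k, ∀ c ∈ C j, c = x ∨ c = y) → ∀ z ∈ asm k C,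
        decide (z = c ∨ z = d) = true → z = x ∨ z = y := by
      intro C hC z hz hp
      rcases mem_asm.1 hz with h | ⟨j, hj, h⟩
      · exfalso
        rw [decide_eq_true_iff] at hp
        rcases hp with h' | h'
        · exact hc (h' ▸ h)
        · exact hd (h' ▸ h)
      · exact hC j hj z h
    have cnt : ∀ C : ℕ → List ℕ, ∀ w : ℕ,
        (∀ z ∈ asm k C, decide (z = c ∨ z = d) = true ↔ z = w) →
        rl c d (asm k C) = List.replicate ((asm k C).count w) w := by
      intro C w hz
      unfold rl
      rw [List.filter_congr (q := fun x => x == w) (fun x hx => by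
        rw [Bool.eq_iff_iff, hz x hx, beq_iff_eq])]
      exact List.filter_beq w
    suffices h : rl c d (asm k U) = rl c d (asm k V) ∨
        (rl c d (asm k U) = rl x y (asm k U) ∧ rl c d (asm k V) = rl x y (asm k V)) by
      rcases h with h | ⟨h1, h2⟩
      · rw [h]
        exact ⟨rfl, rfl⟩
      · rw [h1, h2]
        exact ⟨hh, hl⟩
    by_cases hp0 : x = c ∨ x = d
    · by_cases hp1 : y = c ∨ y = d
      · right
        have e : ∀ C : ℕ → List ℕ, (∀ j ≤ k, ∀ c ∈ C j, c = x ∨ c = y) →
            rl c d (asm k C) = rl x y (asm k C) := by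
          intro C hC
          apply List.filter_congr
          intro z hz
          rw [Bool.eq_iff_iff]
          constructor
          · intro h
            rw [decide_eq_true_iff]
            exact key C hC z hz h
          · intro h
            rw [decide_eq_true_iff] at h
            rw [decide_eq_true_iff]
            rcases h with h | h <;> subst h
            · exact hp0
            · exact hp1
        exact ⟨e U hU, e V hV⟩
      · left
        have e : ∀ C : ℕ → List ℕ, (∀ j ≤ k, ∀ c ∈ C j, c = x ∨ c = y) →
            ∀ z ∈ asm k C, decide (z = c ∨ z = d) = true ↔ z = x := by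
          intro C hC z hz
          constructor
          · intro h
            rcases key C hC z hz h with h' | h'
            · exact h'
            · subst h'
              rw [decide_eq_true_iff] at h
              exact absurd h hp1
          · intro h
            subst h
            rw [decide_eq_true_iff]
            exact hp0
        rw [cnt U x (e U hU), cnt V x (e V hV), c0]
    · left
      by_cases hp1 : y = c ∨ y = d
      · have e : ∀ C : ℕ → List ℕ, (∀ j ≤ k, ∀ c ∈ C j, c = x ∨ c = y) →
            ∀ z ∈ asm k C, decide (z = c ∨ z = d) = true ↔ z = y := by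
          intro C hC z hz
          constructor
          · intro h
            rcases key C hC z hz h with h' | h'
            · subst h'
              rw [decide_eq_true_iff] at h
              exact absurd h hp0
            · exact h'
          · intro h
            subst h
            rw [decide_eq_true_iff]
            exact hp1
        rw [cnt U y (e U hU), cnt V y (e V hV), c1]
      · have e : ∀ C : ℕ → List ℕ, (∀ j ≤ k, ∀ c ∈ C j, c = x ∨ c = y) →
            rl c d (asm k C) = [] := by
          intro C hC
          unfold rl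
          rw [List.filter_eq_nil_iff]
          intro z hz h
          rcases key C hC z hz h with h' | h'
          · subst h'
            rw [decide_eq_true_iff] at h
            exact hp0 h
          · subst h'
            rw [decide_eq_true_iff] at h
            exact hp1 h
        rw [e U hU, e V hV]

theorem rl_nil {x y : ℕ} {L : List ℕ} (hx : x ∉ L) (hy : y ∉ L) : rl x y L = [] := by
  unfold rl
  rw [List.filter_eq_nil_iff]
  intro z hz h
  rw [decide_eq_true_iff] at h
  rcases h with h | h
  · exact hx (h ▸ hz)
  · exact hy (h ▸ hz)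

theorem rl_self {x y : ℕ} {L : List ℕ} (h : ∀ z ∈ L, z = x ∨ z = y) : rl x y L = L := by
  unfold rl
  rw [List.filter_eq_self]
  intro z hz
  rw [decide_eq_true_iff]
  exact h z hz

/-- the head of a two letter word whose first block is `i` -/
theorem head_rl {k i x y : ℕ} (hi : i ≤ k) (hx : NS k x) (hy : NS k y) {U : ℕ → List ℕ}
    (hU : ∀ j ≤ k, ∀ z ∈ U j, z = x ∨ z = y) (h0 : ∀ j < i, U j = []) {z : ℕ}
    (hz : (U i).head? = some z) : (rl x y (asm k U)).head? = some z := by
  rw [asm_split hi]
  have e1 : rl x y (pre U i ++ U i ++ suf U i (k - i)) =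
      rl x y (pre U i) ++ rl x y (U i) ++ rl x y (suf U i (k - i)) := by
    unfold rl
    rw [List.filter_append, List.filter_append]
  have e2 : rl x y (pre U i) = [] := by
    apply rl_nil
    · intro h
      rcases mem_pre.1 h with h | ⟨j, hj, h⟩
      · exact hx ⟨h.1, by omega⟩
      · rw [h0 j hj] at h
        simp at h
    · intro h
      rcases mem_pre.1 h with h | ⟨j, hj, h⟩
      · exact hy ⟨h.1, by omega⟩
      · rw [h0 j hj] at h
        simp at h
  rw [e1, e2, rl_self (hU i hi), List.nil_append, List.head?_append, hz]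
  rfl

/-- the last letter of a two letter word whose last block is `M` -/
theorem last_rl {k M x y : ℕ} (hM : M ≤ k) (hx : NS k x) (hy : NS k y) {U : ℕ → List ℕ}
    (hU : ∀ j ≤ k, ∀ z ∈ U j, z = x ∨ z = y) (h0 : ∀ j, M < j → j ≤ k → U j = []) {z : ℕ}
    (hz : z ∈ U M) (hz' : ∀ w ∈ U M, w = z) : (rl x y (asm k U)).getLast? = some z := by
  rw [asm_split hM]
  have e1 : rl x y (pre U M ++ U M ++ suf U M (k - M)) =
      rl x y (pre U M) ++ rl x y (U M) ++ rl x y (suf U M (k - M)) := by
    unfold rl
    rw [List.filter_append, List.filter_append]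
  have e2 : rl x y (suf U M (k - M)) = [] := by
    apply rl_nil
    · intro h
      rcases mem_suf.1 h with h | ⟨j, h1, h2, h⟩
      · exact hx ⟨by omega, by omega⟩
      · rw [h0 j h1 (by omega)] at h
        simp at h
    · intro h
      rcases mem_suf.1 h with h | ⟨j, h1, h2, h⟩
      · exact hy ⟨by omega, by omega⟩
      · rw [h0 j h1 (by omega)] at h
        simp at h
  rw [e1, e2, rl_self (hU M hM), List.append_nil, List.getLast?_append]
  have e3 : U M = List.replicate (U M).length z := List.eq_replicate_of_mem hz'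
  have e4 : (U M).length ≠ 0 := by
    intro h
    rw [List.length_eq_zero_iff] at h
    rw [h] at hz
    simp at hz
  rw [e3, List.getLast?_replicate, if_neg e4]
  rfl

theorem mem_iff_of_count {L L' : List ℕ} {c : ℕ} (h : L.count c = L'.count c) :
    c ∈ L ↔ c ∈ L' := by
  rw [← List.count_pos_iff, ← List.count_pos_iff, h]

theorem ffx (hN : NfsStmt) (hG : GlaStmt) : FfxStmt := by
  intro ω hω k B C i P Q x y hi hB hA hxy hBi hxP hyP hlt hdis hex hey hT hhead
  have hxi : x ∈ B i := by rw [hBi]; simp
  have hyi : y ∈ B i := by rw [hBi]; simp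
  have nsx : NS k x := hB i hi x hxi
  have nsy : NS k y := hB i hi y hyi
  have hdx : 2 ≤ deg k (fun j => (B j).count x) := hA i hi x hxi
  have hdy : 2 ≤ deg k (fun j => (B j).count y) := hA i hi y hyi
  have hyx : y ≠ x := fun h => hxy h.symm
  -- the last blocks
  have lastb : ∀ c, (∃ j ≤ k, i < j ∧ c ∈ B j) → ∃ M ≤ k, i < M ∧ c ∈ B M ∧
      ∀ j ≤ k, M < j → c ∉ B j := by
    intro c hc
    obtain ⟨j, hjk, hij, hcj⟩ := hc
    have hpos : 0 < deg k (fun j => (B j).count c) := by
      have h1 : 0 < (B j).count c := List.count_pos_iff.2 hcj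
      unfold deg
      exact lt_of_lt_of_le h1 (Finset.single_le_sum (f := fun j => (B j).count c)
        (fun _ _ => Nat.zero_le _) (Finset.mem_range.2 (by omega)))
    obtain ⟨M, h1, h2, h3⟩ := exists_last hpos
    refine ⟨M, h1, ?_, List.count_pos_iff.1 (Nat.pos_of_ne_zero h2), ?_⟩
    · by_contra h4
      exact absurd (h3 j (by omega) hjk) (by
        have := List.count_pos_iff.2 hcj
        omega)
    · intro j' h4 h5 h6
      have := List.count_pos_iff.2 h6
      have := h3 j' h5 h4
      omega
  obtain ⟨Mx, hMx, hiMx, hxMx, hxl⟩ := lastb x hex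
  obtain ⟨My, hMy, hiMy, hyMy, hyl⟩ := lastb y hey
  -- the last block of both letters
  obtain ⟨M, z, hM, hiM, hzM, hzxy, hMaft, hMonly⟩ : ∃ M z, M ≤ k ∧ i < M ∧ z ∈ B M ∧
      (z = x ∨ z = y) ∧ (∀ j, M < j → j ≤ k → x ∉ B j ∧ y ∉ B j) ∧
      (∀ w, (w = x ∨ w = y) → w ∈ B M → w = z) := by
    have hne : Mx ≠ My := by
      intro h
      subst h
      rcases hdis Mx hMx (by omega) with h | h
      · exact h hxMx
      · exact h hyMy
    rcases lt_or_gt_of_ne hne with h | h
    · refine ⟨My, y, hMy, hiMy, hyMy, Or.inr rfl, fun j h1 h2 => ⟨hxl j h2 (by omega),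
        hyl j h2 h1⟩, ?_⟩
      rintro w (rfl | rfl) hw
      · exact absurd hw (hxl My hMy h)
      · rfl
    · refine ⟨Mx, x, hMx, hiMx, hxMx, Or.inl rfl, fun j h1 h2 => ⟨hxl j h2 h1,
        hyl j h2 (by omega)⟩, ?_⟩
      rintro w (rfl | rfl) hw
      · rfl
      · exact absurd hw (hyl Mx hMx h)
  -- general facts on two letter families with the same counts
  have gen : ∀ U : ℕ → List ℕ, (∀ j ≤ k, ∀ w ∈ U j, w = x ∨ w = y) →
      (∀ j ≤ k, (U j).count x = (B j).count x ∧ (U j).count y = (B j).count y) →
      (∀ j < i, U j = []) ∧ (rl x y (asm k U)).getLast? = some z := by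
    intro U hU hc
    have emp : ∀ j ≤ k, x ∉ B j → y ∉ B j → U j = [] := by
      intro j hj h1 h2
      rw [List.eq_nil_iff_forall_not_mem]
      intro w hw
      rcases hU j hj w hw with h | h
      · subst h
        exact h1 ((mem_iff_of_count (hc j hj).1).1 hw)
      · subst h
        exact h2 ((mem_iff_of_count (hc j hj).2).1 hw)
    refine ⟨fun j hj => emp j (by omega) (hlt j hj).1 (hlt j hj).2, ?_⟩
    apply last_rl hM nsx nsy hU
    · intro j h1 h2
      exact emp j h2 (hMaft j h1 h2).1 (hMaft j h1 h2).2
    · rcases hzxy with h | h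
      · rw [h] at hzM ⊢
        exact (mem_iff_of_count (hc M hM).1).2 hzM
      · rw [h] at hzM ⊢
        exact (mem_iff_of_count (hc M hM).2).2 hzM
    · intro w hw
      rcases hU M hM w hw with h | h
      · apply hMonly w (Or.inl h)
        rw [h] at hw ⊢
        exact (mem_iff_of_count (hc M hM).1).1 hw
      · apply hMonly w (Or.inr h)
        rw [h] at hw ⊢
        exact (mem_iff_of_count (hc M hM).2).1 hw
  -- the two letter words
  obtain ⟨W1, hW1⟩ : ∃ W1 : ℕ → List ℕ, ∀ j, W1 j =
      List.replicate ((B j).count x) x ++ List.replicate ((B j).count y) y := ⟨_, fun _ => rfl⟩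
  obtain ⟨W2, hW2i, hW2⟩ : ∃ W2 : ℕ → List ℕ, W2 i =
      List.replicate ((B i).count y) y ++ List.replicate ((B i).count x) x ∧
      ∀ j, j ≠ i → W2 j = W1 j := by
    refine ⟨Function.update W1 i (List.replicate ((B i).count y) y ++
      List.replicate ((B i).count x) x), Function.update_self .., fun j hj =>
      Function.update_of_ne hj ..⟩
  have rcount : ∀ (m n c d e : ℕ), (List.replicate m c ++ List.replicate n d).count e =
      (if c = e then m else 0) + (if d = e then n else 0) := by
    intro m n c d e
    rw [List.count_append, List.count_replicate, List.count_replicate]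
    simp only [beq_iff_eq]
  have w1l : ∀ j ≤ k, ∀ w ∈ W1 j, w = x ∨ w = y := by
    intro j _ w hw
    rw [hW1, List.mem_append] at hw
    rcases hw with h | h
    · exact Or.inl (List.eq_of_mem_replicate h)
    · exact Or.inr (List.eq_of_mem_replicate h)
  have w2l : ∀ j ≤ k, ∀ w ∈ W2 j, w = x ∨ w = y := by
    intro j hj w hw
    by_cases hji : j = i
    · subst hji
      rw [hW2i, List.mem_append] at hw
      rcases hw with h | h
      · exact Or.inr (List.eq_of_mem_replicate h)
      · exact Or.inl (List.eq_of_mem_replicate h)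
    · rw [hW2 j hji] at hw
      exact w1l j hj w hw
  have w1c : ∀ j ≤ k, (W1 j).count x = (B j).count x ∧ (W1 j).count y = (B j).count y := by
    intro j _
    rw [hW1, rcount, rcount, if_pos rfl, if_neg hyx, if_neg hxy, if_pos rfl]
    exact ⟨by omega, by omega⟩
  have w2c : ∀ j ≤ k, (W2 j).count x = (B j).count x ∧ (W2 j).count y = (B j).count y := by
    intro j hj
    by_cases hji : j = i
    · subst hji
      rw [hW2i, rcount, rcount, if_pos rfl, if_neg hyx, if_neg hxy, if_pos rfl]
      exact ⟨by omega, by omega⟩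
    · rw [hW2 j hji]
      exact w1c j hj
  have rc : ∀ j ≤ k, (r2 x y B j).count x = (B j).count x ∧
      (r2 x y B j).count y = (B j).count y := by
    intro j _
    unfold r2
    exact ⟨List.count_filter (by simp), List.count_filter (by simp)⟩
  have rll : ∀ j ≤ k, ∀ w ∈ r2 x y B j, w = x ∨ w = y := by
    intro j _ w hw
    have := (List.mem_filter.1 hw).2
    rwa [decide_eq_true_iff] at this
  have ax : 0 < (B i).count x := List.count_pos_iff.2 hxi
  have by' : 0 < (B i).count y := List.count_pos_iff.2 hyi
  have hrhead : (r2 x y B i).head? = some x := by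
    unfold r2
    rw [hBi, List.filter_append]
    have e := rl_nil hxP hyP
    unfold rl at e
    rw [e, List.nil_append, List.filter_cons_of_pos (by simp)]
    rfl
  have dx : ∀ U : ℕ → List ℕ, (∀ j ≤ k, (U j).count x = (B j).count x ∧
      (U j).count y = (B j).count y) → 2 ≤ deg k (fun j => (U j).count x) ∧
      2 ≤ deg k (fun j => (U j).count y) := by
    intro U hU
    have e1 : deg k (fun j => (U j).count x) = deg k (fun j => (B j).count x) := by
      unfold deg
      exact Finset.sum_congr rfl fun j hj => (hU j (by rw [Finset.mem_range] at hj; omega)).1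
    have e2 : deg k (fun j => (U j).count y) = deg k (fun j => (B j).count y) := by
      unfold deg
      exact Finset.sum_congr rfl fun j hj => (hU j (by rw [Finset.mem_range] at hj; omega)).2
    rw [e1, e2]
    exact ⟨hdx, hdy⟩
  have s1 : RR ω (asm k W1) (asm k (r2 x y B)) := by
    apply nf2s hN hω nsx nsy w1l rll (fun j hj => by rw [(w1c j hj).1, (rc j hj).1])
      (fun j hj => by rw [(w1c j hj).2, (rc j hj).2]) (dx W1 w1c).1 (dx W1 w1c).2
    · rw [head_rl hi nsx nsy w1l (gen W1 w1l w1c).1 (z := x) (by
        rw [hW1]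
        obtain ⟨m, hm⟩ : ∃ m, (B i).count x = m + 1 := ⟨(B i).count x - 1, by omega⟩
        rw [hm, List.replicate_succ]
        rfl), head_rl hi nsx nsy rll (gen _ rll rc).1 hrhead]
    · rw [(gen W1 w1l w1c).2, (gen _ rll rc).2]
  have s2 : RR ω (asm k W2) (asm k C) := by
    have hcc : ∀ j ≤ k, (C j).count x = (B j).count x ∧ (C j).count y = (B j).count y := hT.cnt
    apply nf2s hN hω nsx nsy w2l hT.two (fun j hj => by rw [(w2c j hj).1, (hcc j hj).1])
      (fun j hj => by rw [(w2c j hj).2, (hcc j hj).2]) (dx W2 w2c).1 (dx W2 w2c).2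
    · rw [head_rl hi nsx nsy w2l (gen W2 w2l w2c).1 (z := y) (by
        rw [hW2i]
        obtain ⟨m, hm⟩ : ∃ m, (B i).count y = m + 1 := ⟨(B i).count y - 1, by omega⟩
        rw [hm, List.replicate_succ]
        rfl), head_rl hi nsx nsy hT.two (gen _ hT.two hcc).1 hhead]
    · rw [(gen W2 w2l w2c).2, (gen _ hT.two hcc).2]
  have s12 : RR ω (asm k W1) (asm k W2) := ω.trans s1 (ω.trans hT.rel (RR.symm s2))
  have ok1 : BlkOk k W1 := by
    intro j hj c hc
    rcases w1l j hj c hc with h | h
    · rw [h]; exact nsx
    · rw [h]; exact nsy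
  have ok2 : BlkOk k W2 := by
    intro j hj c hc
    rcases w2l j hj c hc with h | h
    · rw [h]; exact nsx
    · rw [h]; exact nsy
  -- context
  have okc : ∀ U V : ℕ → List ℕ, (∀ j a, (U j).count a = (V j).count a) →
      (BlkOk k V → BlkOk k U) ∧ (AMul k V → AMul k U) := by
    intro U V h
    constructor
    · intro hV j hj c hc
      exact hV j hj c ((mem_iff_of_count (h j c)).1 hc)
    · intro hV j hj c hc
      have e : (fun j => (U j).count c) = fun j => (V j).count c := funext fun j => h j c
      rw [e]
      exact hV j hj c ((mem_iff_of_count (h j c)).1 hc)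
  obtain ⟨B', hB'⟩ : ∃ B' : ℕ → List ℕ, B' = Function.update B i (P ++ y :: x :: Q) := ⟨_, rfl⟩
  have hB'i : B' i = P ++ y :: x :: Q := by rw [hB']; exact Function.update_self ..
  have hB'j : ∀ j, j ≠ i → B' j = B j := by
    intro j hj
    rw [hB']
    exact Function.update_of_ne hj ..
  have hB'c : ∀ j a, (B' j).count a = (B j).count a := by
    intro j a
    by_cases hji : j = i
    · subst hji
      rw [hB'i, hBi, List.count_append, List.count_append, List.count_cons, List.count_cons,
        List.count_cons, List.count_cons]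
      omega
    · rw [hB'j j hji]
  have hB'm : ∀ j c, c ∈ B' j ↔ c ∈ B j := fun j c => mem_iff_of_count (hB'c j c)
  have gm : ∀ (c M : ℕ) (U : ℕ → List ℕ) (j d : ℕ), d ∈ gA c M U j ↔ d ∈ U j :=
    fun c M U j d => mem_iff_of_count (gA_count c M U j d)
  have t1 : RR ω (asm k B) (asm k (gA x Mx B)) :=
    hG ω hω k B x Mx hB hA nsx hMx hxMx hxl (Or.inl ⟨i, hiMx, hxi⟩)
  have t2 : RR ω (asm k (gA x Mx B)) (asm k (gA y My (gA x Mx B))) := by
    obtain ⟨o1, o2⟩ := okc (gA x Mx B) B (gA_count x Mx B)
    exact hG ω hω k _ y My (o1 hB) (o2 hA) nsy hMy ((gm _ _ _ _ _).2 hyMy)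
      (fun j h1 h2 h3 => hyl j h1 h2 ((gm _ _ _ _ _).1 h3))
      (Or.inl ⟨i, hiMy, (gm _ _ _ _ _).2 hyi⟩)
  obtain ⟨p1, p2⟩ := okc B' B hB'c
  have t1' : RR ω (asm k B') (asm k (gA y My B')) :=
    hG ω hω k B' y My (p1 hB) (p2 hA) nsy hMy ((hB'm _ _).2 hyMy)
      (fun j h1 h2 h3 => hyl j h1 h2 ((hB'm _ _).1 h3)) (Or.inl ⟨i, hiMy, (hB'm _ _).2 hyi⟩)
  have t2' : RR ω (asm k (gA y My B')) (asm k (gA x Mx (gA y My B'))) := by
    obtain ⟨o1, o2⟩ := okc (gA y My B') B' (gA_count y My B')
    exact hG ω hω k _ x Mx (o1 (p1 hB)) (o2 (p2 hA)) nsx hMx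
      ((gm _ _ _ _ _).2 ((hB'm _ _).2 hxMx))
      (fun j h1 h2 h3 => hxl j h1 h2 ((hB'm _ _).1 ((gm _ _ _ _ _).1 h3)))
      (Or.inl ⟨i, hiMx, (gm _ _ _ _ _).2 ((hB'm _ _).2 hxi)⟩)
  -- the form of the blocks
  have form : ∀ j, ∃ p q, j ≤ k → gA y My (gA x Mx B) j = p ++ W1 j ++ q ∧
      gA x Mx (gA y My B') j = p ++ W2 j ++ q := by
    intro j
    by_cases hjk' : ¬ j ≤ k
    · exact ⟨[], [], fun h => absurd h hjk'⟩
    rw [not_not] at hjk'
    suffices h : ∃ p q, gA y My (gA x Mx B) j = p ++ W1 j ++ q ∧
        gA x Mx (gA y My B') j = p ++ W2 j ++ q by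
      obtain ⟨p, q, h⟩ := h
      exact ⟨p, q, fun _ => h⟩
    by_cases hji : j = i
    · subst hji
      refine ⟨P, (Q.filter (fun d => decide (d ≠ x))).filter (fun d => decide (d ≠ y)), ?_, ?_⟩
      · have e1 : gA x Mx B j = P ++ List.replicate ((B j).count x) x ++
            y :: Q.filter (fun d => decide (d ≠ x)) := by
          unfold gA
          rw [if_pos hiMx]
          conv_lhs => rw [hBi]
          rw [gF_app hxP, ← hBi, List.filter_cons_of_pos (by simpa using hyx)]
        have e2 : (gA x Mx B j).count y = (B j).count y := gA_count ..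
        have e3 : gA y My (gA x Mx B) j = gF y (gA x Mx B j) := by
          conv_lhs => unfold gA
          rw [if_pos hiMy]
          rfl
        rw [e3, e1, gF_app (by
          rw [List.mem_append]
          rintro (h | h)
          · exact hyP h
          · exact hyx (List.eq_of_mem_replicate h)), ← e1, e2, hW1]
        simp only [List.append_assoc]
      · have e1 : gA y My B' j = P ++ List.replicate ((B j).count y) y ++
            x :: Q.filter (fun d => decide (d ≠ y)) := by
          unfold gA
          rw [if_pos hiMy]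
          conv_lhs => rw [hB'i]
          rw [gF_app hyP, ← hB'i, hB'c, List.filter_cons_of_pos (by simpa using hxy)]
        have e2 : (gA y My B' j).count x = (B j).count x := by rw [gA_count, hB'c]
        have e3 : gA x Mx (gA y My B') j = gF x (gA y My B' j) := by
          conv_lhs => unfold gA
          rw [if_pos hiMx]
          rfl
        rw [e3, e1, gF_app (by
          rw [List.mem_append]
          rintro (h | h)
          · exact hxP h
          · exact hxy (List.eq_of_mem_replicate h)), ← e1, e2, hW2i]
        rw [List.filter_filter, List.filter_filter]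
        simp only [List.append_assoc, Bool.and_comm]
    · rw [hW2 j hji]
      by_cases hjk : x ∈ B j
      · by_cases hy2 : y ∈ B j
        · rcases hdis j hjk' hji with h | h
          · exact absurd hjk h
          · exact absurd hy2 h
        · have e1 : gA y My (gA x Mx B) j = gA x Mx B j :=
            gA_notMem (fun h => hy2 ((gm _ _ _ _ _).1 h))
          have e2 : gA y My B' j = B j := by
            rw [gA_notMem (fun h => hy2 ((hB'm _ _).1 h)), hB'j j hji]
          obtain ⟨p, q, hpq⟩ := gA_form x Mx B j
          refine ⟨p, q, ?_, ?_⟩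
          · rw [e1, hpq, hW1, List.count_eq_zero.2 hy2]
            simp
          · have e3 : gA x Mx (gA y My B') j = gA x Mx B j := by
              conv_lhs => unfold gA
              unfold gA at e2 ⊢
              rw [e2]
            rw [e3, hpq, hW1, List.count_eq_zero.2 hy2]
            simp
      · have e1 : gA x Mx B j = B j := gA_notMem hjk
        have e2 : gA x Mx (gA y My B') j = gA y My B' j :=
          gA_notMem (fun h => hjk ((hB'm _ _).1 ((gm _ _ _ _ _).1 h)))
        obtain ⟨p, q, hpq⟩ := gA_form y My B j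
        have e3 : gA y My (gA x Mx B) j = gA y My B j := by
          conv_lhs => unfold gA
          unfold gA at e1 ⊢
          rw [e1]
        have e4 : gA y My B' j = gA y My B j := by
          unfold gA
          rw [hB'j j hji]
        refine ⟨p, q, ?_, ?_⟩
        · rw [e3, hpq, hW1, List.count_eq_zero.2 hjk]
          simp
        · rw [e2, e4, hpq, hW1, List.count_eq_zero.2 hjk]
          simp
  choose p q hpq using form
  have m1 : asm k (gA y My (gA x Mx B)) = asm k (fun j => p j ++ W1 j ++ q j) :=
    asm_congr fun j hj => (hpq j hj).1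
  have m2 : asm k (gA x Mx (gA y My B')) = asm k (fun j => p j ++ W2 j ++ q j) :=
    asm_congr fun j hj => (hpq j hj).2
  have m3 := rr_ins' ω p q ok1 ok2 s12
  rw [← m1, ← m2] at m3
  rw [hB'] at t1' t2' m3
  exact ω.trans t1 (ω.trans t2 (ω.trans m3 (ω.trans (RR.symm t2') (RR.symm t1'))))

end Pool.Agent.MVO.H35
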