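import Pool.Agent.MVO.StmtsE

/-!
# Squad MVO, row SML (helper35)
-/

namespace Pool.Agent.MVO.H35

open Pool.Agent.Helper14_MV Pool.Agent.Helper2_MV Pool.Agent.MVO

theorem three {l n : ℕ} (hne : l ≠ n) (L : List ℕ) (h : ∀ z ∈ L, z = l ∨ z = n)
    (h1 : L.count l = 2) (h2 : L.count n = 1) :
    L = [l, l, n] ∨ L = [l, n, l] ∨ L = [n, l, l] := by
  have hne' : n ≠ l := fun h => hne h.symm
  rcases L with _ | ⟨a, _ | ⟨b, _ | ⟨c, _ | ⟨d, L⟩⟩⟩⟩
  · simp at h1
  · rcases h a (by simp) with rfl | rfl <;> simp [hne, hne'] at h1 h2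
  · rcases h a (by simp) with rfl | rfl <;> rcases h b (by simp) with rfl | rfl <;>
      simp [hne, hne'] at h1 h2
  · rcases h a (by simp) with rfl | rfl <;> rcases h b (by simp) with rfl | rfl <;>
      rcases h c (by simp) with rfl | rfl <;> simp_all
  · exfalso
    rcases h a (by simp) with rfl | rfl <;> rcases h b (by simp) with rfl | rfl <;>
      rcases h c (by simp) with rfl | rfl <;> rcases h d (by simp) with rfl | rfl <;>
        simp [hne, hne'] at h1 h2

theorem suf_cons (B : ℕ → List ℕ) (i r : ℕ) :
    suf B i (r + 1) = (i + 2) :: (B (i + 1) ++ suf B (i + 1) r) := by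
  induction r with
  | zero => simp [suf]
  | succ r ih =>
    have e : suf B i (r + 1 + 1) = suf B i (r + 1) ++ (i + (r + 1) + 2) :: B (i + (r + 1) + 1) := rfl
    have e' : suf B (i + 1) (r + 1) = suf B (i + 1) r ++ (i + 1 + r + 2) :: B (i + 1 + r + 1) := rfl
    rw [e, ih, e']
    have h1 : i + (r + 1) + 2 = i + 1 + r + 2 := by omega
    have h2 : i + (r + 1) + 1 = i + 1 + r + 1 := by omega
    rw [h1, h2]
    simp

theorem filter_one {p : ℕ → Bool} {n : ℕ} {L : List ℕ} (h : ∀ x ∈ L, p x = true ↔ x = n)
    (hc : L.count n = 1) : L.filter p = [n] := by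
  have e : L.filter p = L.filter (fun x => x == n) :=
    List.filter_congr fun x hx => by rw [Bool.eq_iff_iff, h x hx, beq_iff_eq]
  rw [e, List.filter_beq, hc]
  rfl

theorem filter_none {p : ℕ → Bool} {L : List ℕ} (h : ∀ x ∈ L, p x = false) : L.filter p = [] := by
  rw [List.filter_eq_nil_iff]
  intro x hx
  rw [h x hx]
  decide

/-- the filtered word, `n` behind -/
theorem fil_r {k i l n : ℕ} (hi : i ≤ k) {C : ℕ → List ℕ} (hB : BlkOk k C)
    (hl : NS k l) (hn : NS k n) (h2 : ∀ j ≤ k, ∀ z ∈ C j, z = l ∨ z = n)
    (hcn : (C i).count n = 1) (hloc : ∀ j ≤ k, j ≠ i → l ∉ C j)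
    (hdeg : deg k (fun j => (C j).count n) = 2) (hj : ∃ j ≤ k, i < j ∧ n ∈ C j) :
    (asm k C).filter (fun c => decide (c = l ∨ c = n ∨ c = i + 2)) = C i ++ [i + 2, n] := by
  obtain ⟨j, hjk, hij, hnj⟩ := hj
  have htot : (asm k C).count n = 2 := by rw [count_asm hn]; exact hdeg
  obtain ⟨r, hr⟩ : ∃ r, k - i = r + 1 := ⟨k - i - 1, by omega⟩
  have hsp := asm_split hi C
  rw [hr, suf_cons] at hsp
  have htn : (i + 2) ≠ n := fun h => hn ⟨by omega, by omega⟩
  have htl : (i + 2) ≠ l := fun h => hl ⟨by omega, by omega⟩
  rw [hsp, List.count_append, List.count_append, List.count_cons_of_ne htn, hcn] at htot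
  have hge : 1 ≤ (C (i + 1) ++ suf C (i + 1) r).count n := by
    rw [Nat.succ_le_iff, List.count_pos_iff, List.mem_append]
    by_cases h : j = i + 1
    · subst h
      exact Or.inl hnj
    · exact Or.inr (mem_suf.2 (Or.inr ⟨j, by omega, by omega, hnj⟩))
  have hpre : (pre C i).count n = 0 := by omega
  have hsuf : (C (i + 1) ++ suf C (i + 1) r).count n = 1 := by omega
  rw [hsp, List.filter_append, List.filter_append]
  have e1 : (pre C i).filter (fun c => decide (c = l ∨ c = n ∨ c = i + 2)) = [] := by
    apply filter_none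
    intro x hx
    rw [decide_eq_false_iff_not]
    rintro (h | h | h)
    · subst h
      rcases mem_pre.1 hx with h | ⟨m, hm, h⟩
      · exact hl ⟨h.1, by omega⟩
      · exact hloc m (by omega) (by omega) h
    · subst h
      exact absurd hx (List.count_eq_zero.1 hpre)
    · rcases mem_pre.1 hx with h' | ⟨m, hm, h'⟩
      · omega
      · exact hB m (by omega) x h' ⟨by omega, by omega⟩
  have e2 : (C i).filter (fun c => decide (c = l ∨ c = n ∨ c = i + 2)) = C i := by
    rw [List.filter_eq_self]
    intro x hx
    rw [decide_eq_true_iff]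
    rcases h2 i hi x hx with h | h
    · exact Or.inl h
    · exact Or.inr (Or.inl h)
  have e3 : (C (i + 1) ++ suf C (i + 1) r).filter
      (fun c => decide (c = l ∨ c = n ∨ c = i + 2)) = [n] := by
    apply filter_one _ hsuf
    intro x hx
    rw [decide_eq_true_iff]
    constructor
    · rintro (h | h | h)
      · exfalso
        subst h
        rw [List.mem_append] at hx
        rcases hx with hx | hx
        · exact hloc (i + 1) (by omega) (by omega) hx
        · rcases mem_suf.1 hx with h | ⟨m, h1, h3, h⟩
          · exact hl ⟨by omega, by omega⟩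
          · exact hloc m (by omega) (by omega) h
      · exact h
      · exfalso
        subst h
        rw [List.mem_append] at hx
        rcases hx with hx | hx
        · exact hB (i + 1) (by omega) _ hx ⟨by omega, by omega⟩
        · rcases mem_suf.1 hx with h | ⟨m, h1, h3, h⟩
          · omega
          · exact hB m (by omega) _ h ⟨by omega, by omega⟩
    · intro h
      exact Or.inr (Or.inl h)
  rw [e1, e2, List.filter_cons_of_pos (by rw [decide_eq_true_iff]; exact Or.inr (Or.inr rfl)), e3]
  rfl

/-- the filtered word, `n` in front -/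
theorem fil_l {k i l n : ℕ} (hi : i ≤ k) {C : ℕ → List ℕ} (hB : BlkOk k C)
    (hl : NS k l) (hn : NS k n) (h2 : ∀ j ≤ k, ∀ z ∈ C j, z = l ∨ z = n)
    (hcn : (C i).count n = 1) (hloc : ∀ j ≤ k, j ≠ i → l ∉ C j)
    (hdeg : deg k (fun j => (C j).count n) = 2) (hj : ∃ j < i, n ∈ C j) :
    (asm k C).filter (fun c => decide (c = l ∨ c = n ∨ c = i + 1)) = [n, i + 1] ++ C i := by
  obtain ⟨j, hij, hnj⟩ := hj
  have htot : (asm k C).count n = 2 := by rw [count_asm hn]; exact hdeg
  obtain ⟨s, hs⟩ : ∃ s, i = s + 1 := ⟨i - 1, by omega⟩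
  have hsp := asm_split hi C
  have hpr : pre C i = asm s C ++ [i + 1] := by
    rw [hs]
    rfl
  rw [hpr] at hsp
  have htn : (i + 1) ≠ n := fun h => hn ⟨by omega, by omega⟩
  have htl : (i + 1) ≠ l := fun h => hl ⟨by omega, by omega⟩
  rw [hsp, List.count_append, List.count_append, List.count_append,
    List.count_cons_of_ne htn, List.count_nil, hcn] at htot
  have hge : 1 ≤ (asm s C).count n := by
    rw [Nat.succ_le_iff, List.count_pos_iff]
    exact mem_asm.2 (Or.inr ⟨j, by omega, hnj⟩)
  have hpre : (asm s C).count n = 1 := by omega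
  have hsuf : (suf C i (k - i)).count n = 0 := by omega
  rw [hsp, List.filter_append, List.filter_append, List.filter_append]
  have e1 : (suf C i (k - i)).filter (fun c => decide (c = l ∨ c = n ∨ c = i + 1)) = [] := by
    apply filter_none
    intro x hx
    rw [decide_eq_false_iff_not]
    rintro (h | h | h)
    · subst h
      rcases mem_suf.1 hx with h | ⟨m, h1, hm, h⟩
      · exact hl ⟨by omega, by omega⟩
      · exact hloc m (by omega) (by omega) h
    · subst h
      exact absurd hx (List.count_eq_zero.1 hsuf)
    · rcases mem_suf.1 hx with h' | ⟨m, h1, hm, h'⟩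
      · omega
      · exact hB m (by omega) x h' ⟨by omega, by omega⟩
  have e2 : (C i).filter (fun c => decide (c = l ∨ c = n ∨ c = i + 1)) = C i := by
    rw [List.filter_eq_self]
    intro x hx
    rw [decide_eq_true_iff]
    rcases h2 i hi x hx with h | h
    · exact Or.inl h
    · exact Or.inr (Or.inl h)
  have e3 : (asm s C).filter (fun c => decide (c = l ∨ c = n ∨ c = i + 1)) = [n] := by
    apply filter_one _ hpre
    intro x hx
    rw [decide_eq_true_iff]
    constructor
    · rintro (h | h | h)
      · exfalso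
        subst h
        rcases mem_asm.1 hx with h | ⟨m, h1, h⟩
        · exact hl ⟨by omega, by omega⟩
        · exact hloc m (by omega) (by omega) h
      · exact h
      · exfalso
        subst h
        rcases mem_asm.1 hx with h | ⟨m, h1, h⟩
        · omega
        · exact hB m (by omega) _ h ⟨by omega, by omega⟩
    · intro h
      exact Or.inr (Or.inl h)
  rw [e1, e2, e3, List.append_nil]
  have e4 : [i + 1].filter (fun c => decide (c = l ∨ c = n ∨ c = i + 1)) = [i + 1] := by
    rw [List.filter_cons_of_pos (by rw [decide_eq_true_iff]; exact Or.inr (Or.inr rfl))]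
    rfl
  rw [e4]
  rfl

theorem sml (hS : SgcStmt) : SmlStmt := by
  intro ω hω k C C' i l n hi hB hB' hne hl hn h2 h2' hcnt hcl hcn hloc hdeg hr
  have hcl' : (C' i).count l = 2 := by rw [← hcnt i hi l]; exact hcl
  have hcn' : (C' i).count n = 1 := by rw [← hcnt i hi n]; exact hcn
  have hloc' : ∀ j ≤ k, j ≠ i → l ∉ C' j := by
    intro j hj hji h
    have h1 : 0 < (C' j).count l := List.count_pos_iff.2 h
    rw [← hcnt j hj l] at h1
    exact hloc j hj hji (List.count_pos_iff.1 h1)
  have hdeg' : deg k (fun j => (C' j).count n) = 2 := by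
    rw [← hdeg]
    unfold deg
    exact Finset.sum_congr rfl fun j hj => (hcnt j (by rw [Finset.mem_range] at hj; omega) n).symm
  have hne' : n ≠ l := fun h => hne h.symm
  constructor
  · rintro hIAd hj ⟨hh, hh'⟩
    obtain ⟨j, hjk, hij, hnj⟩ := hj
    have hnj' : n ∈ C' j := by
      have h1 : 0 < (C j).count n := List.count_pos_iff.2 hnj
      rw [hcnt j hjk n] at h1
      exact List.count_pos_iff.1 h1
    have htn : n ≠ i + 2 := fun h => hn ⟨by omega, by omega⟩
    have htl : l ≠ i + 2 := fun h => hl ⟨by omega, by omega⟩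
    have h1 := hr.filter (fun c => decide (c = l ∨ c = n ∨ c = i + 2))
    rw [fil_r hi hB hl hn h2 hcn hloc hdeg ⟨j, hjk, hij, hnj⟩,
      fil_r hi hB' hl hn h2' hcn' hloc' hdeg' ⟨j, hjk, hij, hnj'⟩] at h1
    have hC' : C' i = [n, l, l] := by
      rcases three hne _ (h2' i hi) hcl' hcn' with h | h | h
      · rw [h] at hh'
        simp only [List.head?_cons, Option.some.injEq] at hh'
        exact absurd hh' hne
      · rw [h] at hh'
        simp only [List.head?_cons, Option.some.injEq] at hh'
        exact absurd hh' hne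
      · exact h
    have hmv := (hS ω hω [l] [i + 2, n] l n).1 (by simp) (by simp)
    have h3 : RR ω [l, l, n, i + 2, n] [n, l, l, i + 2, n] := by
      rw [hC'] at h1
      rcases three hne _ (h2 i hi) hcl hcn with h | h | h
      · rw [h] at h1
        exact h1
      · rw [h] at h1
        exact ω.trans hmv h1
      · rw [h] at hh
        simp only [List.head?_cons, Option.some.injEq] at hh
        exact absurd hh hne'
    apply hIAd
    have h4 := h3.sub (fun c => if c = l then [3] else if c = n then [0] else [2])
    simp only [List.flatMap_cons, List.flatMap_nil, if_true, if_neg hne', if_neg htl.symm,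
      if_neg htn.symm, List.append_nil, List.cons_append, List.nil_append] at h4
    exact h4
  · rintro hIA hj ⟨hh, hh'⟩
    obtain ⟨j, hij, hnj⟩ := hj
    have hnj' : n ∈ C' j := by
      have h1 : 0 < (C j).count n := List.count_pos_iff.2 hnj
      rw [hcnt j (by omega) n] at h1
      exact List.count_pos_iff.1 h1
    have htn : n ≠ i + 1 := fun h => hn ⟨by omega, by omega⟩
    have htl : l ≠ i + 1 := fun h => hl ⟨by omega, by omega⟩
    have h1 := hr.filter (fun c => decide (c = l ∨ c = n ∨ c = i + 1))
    rw [fil_l hi hB hl hn h2 hcn hloc hdeg ⟨j, hij, hnj⟩,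
      fil_l hi hB' hl hn h2' hcn' hloc' hdeg' ⟨j, hij, hnj'⟩] at h1
    have hC' : C' i = [l, l, n] := by
      rcases three hne _ (h2' i hi) hcl' hcn' with h | h | h
      · exact h
      · rw [h] at hh'
        simp only [List.getLast?_cons_cons, List.getLast?_singleton, Option.some.injEq] at hh'
        exact absurd hh' hne
      · rw [h] at hh'
        simp only [List.getLast?_cons_cons, List.getLast?_singleton, Option.some.injEq] at hh'
        exact absurd hh' hne
    have hmv := (hS ω hω [n, i + 1] [l] n l).1 (by simp) (by simp)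
    have h3 : RR ω [n, i + 1, n, l, l] [n, i + 1, l, l, n] := by
      rw [hC'] at h1
      rcases three hne _ (h2 i hi) hcl hcn with h | h | h
      · rw [h] at hh
        simp only [List.getLast?_cons_cons, List.getLast?_singleton, Option.some.injEq] at hh
        exact absurd hh hne'
      · rw [h] at h1
        exact ω.trans hmv h1
      · rw [h] at h1
        exact h1
    apply hIA
    have h4 := h3.sub (fun c => if c = l then [3] else if c = n then [0] else [2])
    simp only [List.flatMap_cons, List.flatMap_nil, if_true, if_neg hne', if_neg htl.symm,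
      if_neg htn.symm, List.append_nil, List.cons_append, List.nil_append] at h4
    exact h4

end Pool.Agent.MVO.H35
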