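import Pool.Agent.MVO.StmtsA

/-!
# Squad MVO, block A: two letter words (helper35)
-/

namespace Pool.Agent.MVO.H35

open Pool.Agent.Helper14_MV Pool.Agent.Helper2_MV Pool.Agent.MVO

/-- the test for the letters 0 and 1 -/
def p01 : ℕ → Bool := fun x => decide (x = 0 ∨ x = 1)

/-- the last one of the letters 0, 1 -/
def lst (w : List ℕ) : Option ℕ := (w.filter p01).getLast?

theorem ns0 (k : ℕ) : NS k 0 := fun h => by omega

theorem ns1 (k : ℕ) : NS k 1 := fun h => by omega

theorem asm_rr (ρ : FIC) {k : ℕ} {B B' : ℕ → List ℕ} (h : ∀ j ≤ k, RR ρ (B j) (B' j)) :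
    RR ρ (asm k B) (asm k B') := by
  induction k with
  | zero => exact h 0 le_rfl
  | succ k ih =>
    simp only [asm]
    exact (ih fun j hj => h j (by omega)).append
      ((RR.refl (β := ρ) [k + 2]).append (h (k + 1) le_rfl))

/-- words in the letters 0, 1 with the same types and the same last letter -/
theorem nf2 (hN : NfaStmt) {β : FIC} (hA : ClA β) {k : ℕ} {B B' : ℕ → List ℕ} {a b : ℕ → ℕ}
    (hB : ∀ j ≤ k, ∀ c ∈ B j, c = 0 ∨ c = 1) (hB' : ∀ j ≤ k, ∀ c ∈ B' j, c = 0 ∨ c = 1)
    (h0 : ∀ j ≤ k, (B j).count 0 = a j ∧ (B' j).count 0 = a j)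
    (h1 : ∀ j ≤ k, (B j).count 1 = b j ∧ (B' j).count 1 = b j)
    (ha : 2 ≤ deg k a) (hb : 2 ≤ deg k b) (hl : lst (asm k B) = lst (asm k B')) :
    RR β (asm k B) (asm k B') := by
  have ok : ∀ C : ℕ → List ℕ, (∀ j ≤ k, ∀ c ∈ C j, c = 0 ∨ c = 1) → BlkOk k C := by
    intro C hC j hj c hc hs
    rcases hC j hj c hc with h | h <;> subst h <;> omega
  have dg : ∀ f g : ℕ → ℕ, (∀ j ≤ k, f j = g j) → deg k f = deg k g := by
    intro f g h
    unfold deg
    exact Finset.sum_congr rfl fun j hj => h j (by rw [Finset.mem_range] at hj; omega)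
  have c0 : (asm k B).count 0 = (asm k B').count 0 := by
    rw [count_asm (ns0 k), count_asm (ns0 k)]
    exact dg _ _ fun j hj => by rw [(h0 j hj).1, (h0 j hj).2]
  have c1 : (asm k B).count 1 = (asm k B').count 1 := by
    rw [count_asm (ns1 k), count_asm (ns1 k)]
    exact dg _ _ fun j hj => by rw [(h1 j hj).1, (h1 j hj).2]
  apply hN β hA k B B' (ok B hB) (ok B' hB')
  · intro j hj c
    by_cases hc0 : c = 0
    · subst hc0
      rw [(h0 j hj).1, (h0 j hj).2]
    by_cases hc1 : c = 1
    · subst hc1
      rw [(h1 j hj).1, (h1 j hj).2]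
    rw [List.count_eq_zero.2 fun h => ?_, List.count_eq_zero.2 fun h => ?_]
    · rcases hB' j hj c h with h | h
      · exact hc0 h
      · exact hc1 h
    · rcases hB j hj c h with h | h
      · exact hc0 h
      · exact hc1 h
  · intro j hj c hc
    rcases hB j hj c hc with h | h
    · subst h
      rw [dg _ a fun i hi => (h0 i hi).1]
      exact ha
    · subst h
      rw [dg _ b fun i hi => (h1 i hi).1]
      exact hb
  · intro c d hc hd
    obtain ⟨p, hp⟩ : ∃ p : ℕ → Bool, p = fun x => decide (x = c ∨ x = d) := ⟨_, rfl⟩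
    rw [← hp]
    have key : ∀ C : ℕ → List ℕ, (∀ j ≤ k, ∀ c ∈ C j, c = 0 ∨ c = 1) → ∀ x ∈ asm k C,
        p x = true → x = 0 ∨ x = 1 := by
      intro C hC x hx hpx
      rcases mem_asm.1 hx with h | ⟨j, hj, h⟩
      · exfalso
        rw [hp, decide_eq_true_iff] at hpx
        rcases hpx with h' | h'
        · exact hc (h' ▸ h)
        · exact hd (h' ▸ h)
      · exact hC j hj x h
    have cnt : ∀ C : ℕ → List ℕ, ∀ z : ℕ, (∀ x ∈ asm k C, p x = true ↔ x = z) →
        (asm k C).filter p = List.replicate ((asm k C).count z) z := by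
      intro C z hz
      rw [List.filter_congr (q := fun x => x == z) (fun x hx => by
        rw [Bool.eq_iff_iff, hz x hx, beq_iff_eq])]
      exact List.filter_beq z
    by_cases hp0 : p 0 = true
    · by_cases hp1 : p 1 = true
      · have e : ∀ C : ℕ → List ℕ, (∀ j ≤ k, ∀ c ∈ C j, c = 0 ∨ c = 1) →
            (asm k C).filter p = (asm k C).filter p01 := by
          intro C hC
          apply List.filter_congr
          intro x hx
          rw [Bool.eq_iff_iff]
          constructor
          · intro h
            rw [p01, decide_eq_true_iff]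
            exact key C hC x hx h
          · intro h
            rw [p01, decide_eq_true_iff] at h
            rcases h with h | h <;> subst h
            · exact hp0
            · exact hp1
        rw [e B hB, e B' hB']
        exact hl
      · have e : ∀ C : ℕ → List ℕ, (∀ j ≤ k, ∀ c ∈ C j, c = 0 ∨ c = 1) →
            ∀ x ∈ asm k C, p x = true ↔ x = 0 := by
          intro C hC x hx
          constructor
          · intro h
            rcases key C hC x hx h with h' | h'
            · exact h'
            · subst h'
              exact absurd h hp1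
          · intro h
            subst h
            exact hp0
        rw [cnt B 0 (e B hB), cnt B' 0 (e B' hB'), c0]
    · by_cases hp1 : p 1 = true
      · have e : ∀ C : ℕ → List ℕ, (∀ j ≤ k, ∀ c ∈ C j, c = 0 ∨ c = 1) →
            ∀ x ∈ asm k C, p x = true ↔ x = 1 := by
          intro C hC x hx
          constructor
          · intro h
            rcases key C hC x hx h with h' | h'
            · subst h'
              exact absurd h hp0
            · exact h'
          · intro h
            subst h
            exact hp1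
        rw [cnt B 1 (e B hB), cnt B' 1 (e B' hB'), c1]
      · have e : ∀ C : ℕ → List ℕ, (∀ j ≤ k, ∀ c ∈ C j, c = 0 ∨ c = 1) →
            (asm k C).filter p = [] := by
          intro C hC
          rw [List.filter_eq_nil_iff]
          intro x hx h
          rcases key C hC x hx h with h' | h'
          · subst h'
            exact hp0 h
          · subst h'
            exact hp1 h
        rw [e B hB, e B' hB']

theorem lst_append (u v : List ℕ) : lst (u ++ v) = (lst v).or (lst u) := by
  unfold lst
  rw [List.filter_append, List.getLast?_append]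

theorem lst_cons_sep {c : ℕ} (hc : 2 ≤ c) (v : List ℕ) : lst (c :: v) = lst v := by
  unfold lst
  rw [List.filter_cons_of_neg]
  rw [p01, decide_eq_true_iff]
  omega

theorem lst_asm_succ (k : ℕ) (B : ℕ → List ℕ) :
    lst (asm (k + 1) B) = (lst (B (k + 1))).or (lst (asm k B)) := by
  simp only [asm]
  rw [lst_append, lst_cons_sep (by omega)]

/-- the last letter is in block `i` -/
theorem lst_asm {k i : ℕ} (hi : i ≤ k) {B : ℕ → List ℕ} (h : ∀ j, i < j → j ≤ k → B j = [])
    {z : ℕ} (hz : lst (B i) = some z) : lst (asm k B) = some z := by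
  induction k with
  | zero =>
    have : i = 0 := by omega
    subst this
    exact hz
  | succ k ih =>
    rw [lst_asm_succ]
    by_cases hik : i = k + 1
    · subst hik
      rw [hz]
      rfl
    · rw [h (k + 1) (by omega) le_rfl]
      rw [show lst [] = none from rfl, Option.none_or]
      exact ih (by omega) fun j h1 h2 => h j h1 (by omega)

/-- words which agree behind block `i`, where a letter 0 or 1 occurs -/
theorem lst_asm_congr {k i : ℕ} {B B' : ℕ → List ℕ} (h : ∀ j, i < j → j ≤ k → B j = B' j)
    (hne : ∃ j, i < j ∧ j ≤ k ∧ lst (B j) ≠ none) : lst (asm k B) = lst (asm k B') := by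
  induction k with
  | zero =>
    obtain ⟨j, h1, h2, -⟩ := hne
    omega
  | succ k ih =>
    rw [lst_asm_succ, lst_asm_succ]
    obtain ⟨j, h1, h2, h3⟩ := hne
    rw [← h (k + 1) (by omega) le_rfl]
    by_cases hj : j = k + 1
    · subst hj
      cases hz : lst (B (k + 1)) with
      | none => exact absurd hz h3
      | some z => rfl
    · rw [ih (fun j h1 h2 => h j h1 (by omega)) ⟨j, h1, by omega, h3⟩]

theorem lst_bl_true {p q : ℕ} (hp : 0 < p) : lst (bl p q true) = some 0 := by
  unfold lst bl
  obtain ⟨p, rfl⟩ : ∃ r, p = r + 1 := ⟨p - 1, by omega⟩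
  rw [if_pos rfl, List.filter_append, List.replicate_succ' (n := p), List.filter_append]
  simp [p01]

theorem lst_bl_false {p q : ℕ} (hq : 0 < q) : lst (bl p q false) = some 1 := by
  unfold lst bl
  obtain ⟨q, rfl⟩ : ∃ r, q = r + 1 := ⟨q - 1, by omega⟩
  rw [if_neg (by decide), List.filter_append, List.replicate_succ' (n := q), List.filter_append]
  simp [p01]

theorem lst_bl {p q : ℕ} (hp : 0 < p) (hq : 0 < q) (e : Bool) :
    lst (bl p q e) = some (if e then 0 else 1) := by
  cases e
  · exact lst_bl_false hq
  · exact lst_bl_true hp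

theorem lst_bl_ne {p q : ℕ} (h : p ≠ 0 ∨ q ≠ 0) (e : Bool) : lst (bl p q e) ≠ none := by
  by_cases hp : p = 0
  · have hq : q ≠ 0 := by
      rcases h with h | h
      · exact absurd hp h
      · exact h
    cases e
    · rw [lst_bl_false (by omega)]; simp
    · have : bl p q true = bl p q false := by
        subst hp
        simp [bl]
      rw [this, lst_bl_false (by omega)]; simp
  · by_cases hq : q = 0
    · cases e
      · have : bl p q false = bl p q true := by
          subst hq
          simp [bl]
        rw [this, lst_bl_true (by omega)]; simp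
      · rw [lst_bl_true (by omega)]; simp
    · rw [lst_bl (by omega) (by omega)]; simp

theorem mem_bl {p q c : ℕ} {e : Bool} (h : c ∈ bl p q e) : c = 0 ∨ c = 1 := by
  unfold bl at h
  split_ifs at h
  · rw [List.mem_append] at h
    rcases h with h | h
    · exact Or.inr (List.eq_of_mem_replicate h)
    · exact Or.inl (List.eq_of_mem_replicate h)
  · rw [List.mem_append] at h
    rcases h with h | h
    · exact Or.inl (List.eq_of_mem_replicate h)
    · exact Or.inr (List.eq_of_mem_replicate h)

theorem count0_bl (p q : ℕ) (e : Bool) : (bl p q e).count 0 = p := by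
  unfold bl
  split_ifs <;> simp [List.count_append, List.count_replicate]

theorem count1_bl (p q : ℕ) (e : Bool) : (bl p q e).count 1 = q := by
  unfold bl
  split_ifs <;> simp [List.count_append, List.count_replicate]

theorem bl_zero_left (q : ℕ) (e e' : Bool) : bl 0 q e = bl 0 q e' := by
  cases e <;> cases e' <;> simp [bl]

theorem bl_zero_right (p : ℕ) (e e' : Bool) : bl p 0 e = bl p 0 e' := by
  cases e <;> cases e' <;> simp [bl]

theorem bl_zero (e : Bool) : bl 0 0 e = [] := by
  cases e <;> simp [bl]

/-- words with the same last letter -/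
theorem w2_congr (hN : NfaStmt) {β : FIC} (hA : ClA β) {k : ℕ} {a b : ℕ → ℕ} {e e' : ℕ → Bool}
    (ha : 2 ≤ deg k a) (hb : 2 ≤ deg k b) (hl : lst (w2 k a b e) = lst (w2 k a b e')) :
    RR β (w2 k a b e) (w2 k a b e') :=
  nf2 hN hA (fun _ _ _ hc => mem_bl hc) (fun _ _ _ hc => mem_bl hc)
    (fun _ _ => ⟨count0_bl _ _ _, count0_bl _ _ _⟩)
    (fun _ _ => ⟨count1_bl _ _ _, count1_bl _ _ _⟩) ha hb hl

end Pool.Agent.MVO.H35
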